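import Pool.Agent.Helper14.W3.StB

/-!
# Project W3, module Hk: Hecke sum over any system of representatives
-/

set_option autoImplicit false

namespace Pool.Agent.Helper7.W3

open Pool.Agent.Helper14.CV Pool.Agent.Helper14.W3

/-- Module Hk. -/
theorem hHk (hN1 : StN1) : S3Hk := by
  intro R _ n l G hl hl3 hG δ hdet hdiv hδ
  have hnd : ¬ l ∣ 3 ^ n := by
    intro h
    have h1 := hl.dvd_of_dvd_pow h
    exact hl3 ((Nat.prime_dvd_prime_iff_eq hl Nat.prime_three).1 h1)
  obtain ⟨π, hπ⟩ := hN1 (3 ^ n) l hl hnd δ hdet (fun P => by push_cast; exact hdiv P) hδ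
  have hl0 : (l : ℤ) ≠ 0 := by exact_mod_cast hl.ne_zero
  -- one representative
  have key : ∀ P : Fin (l + 1), ∃ k : R, ∀ p q : ℤ, (p ≠ 0 ∨ q ≠ 0) →
      G (δ P 0 0 * p + δ P 0 1 * q) (δ P 1 0 * p + δ P 1 1 * q) =
        (if (π P : ℕ) < l then G (p + 1 * ((π P : ℕ) : ℤ) * q) (l * q) else G (l * p) q) + k := by
    intro P
    obtain ⟨γ, hγ, hγ2, he⟩ := hπ P
    rw [Matrix.det_fin_two] at hγ
    obtain ⟨k, hk⟩ := hG.2 (γ 0 0) (γ 0 1) (γ 1 0) (γ 1 1) hγ (by simp) (by push_cast at hγ2; exact hγ2)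
    refine ⟨k, fun p q hpq => ?_⟩
    by_cases hP : (π P : ℕ) < l
    · rw [if_pos hP] at he ⊢
      have hne : p + 1 * ((π P : ℕ) : ℤ) * q ≠ 0 ∨ (l : ℤ) * q ≠ 0 := by
        by_cases hq : q = 0
        · left
          rw [hq, mul_zero, add_zero]
          tauto
        · right
          exact mul_ne_zero hl0 hq
      rw [← hk _ _ hne, he]
      unfold act
      simp only [Matrix.mul_apply, Fin.sum_univ_two, Matrix.of_apply, Matrix.cons_val', Matrix.cons_val_zero,
        Matrix.cons_val_one]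
      congr 1 <;> ring
    · rw [if_neg hP] at he ⊢
      have hne : (l : ℤ) * p ≠ 0 ∨ q ≠ 0 := by
        rcases hpq with h | h
        · exact Or.inl (mul_ne_zero hl0 h)
        · exact Or.inr h
      rw [← hk _ _ hne, he]
      unfold act
      simp only [Matrix.mul_apply, Fin.sum_univ_two, Matrix.of_apply, Matrix.cons_val', Matrix.cons_val_zero,
        Matrix.cons_val_one]
      congr 1 <;> ring
  choose k hk using key
  refine ⟨∑ P, k P, fun p q hpq => ?_⟩
  have h1 : ∑ P, G (δ P 0 0 * p + δ P 0 1 * q) (δ P 1 0 * p + δ P 1 1 * q) =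
      ∑ P, ((if (π P : ℕ) < l then G (p + 1 * ((π P : ℕ) : ℤ) * q) (l * q) else G (l * p) q) + k P) :=
    Finset.sum_congr rfl fun P _ => hk P p q hpq
  refine h1.trans ?_
  rw [Finset.sum_add_distrib]
  congr 1
  have h2 := Equiv.sum_comp π (fun P : Fin (l + 1) =>
    if (P : ℕ) < l then G (p + 1 * ((P : ℕ) : ℤ) * q) (l * q) else G (l * p) q)
  refine h2.trans ?_
  rw [Fin.sum_univ_castSucc]
  unfold Tl
  rw [Finset.sum_range, add_comm]
  congr 1
  · simp
  · refine Finset.sum_congr rfl fun i _ => ?_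
    rw [Fin.val_castSucc, if_pos i.2]

end Pool.Agent.Helper7.W3
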