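import Pool.Agent.Helper78.W3.StD

/-!
# Project W3 (MP_3c9520_nt), module Ld: leading forms of `T_2`, `T_2²`, `T_7 + 1 - T_2²`
-/

set_option autoImplicit false

namespace Pool.Agent.Helper7.W3

open Pool.Agent.Helper14.CV (Homog EqC act Tl)
open Pool.Agent.Helper78.W3 Pool.Agent.Helper14.W3

section lists

variable {q q' : ℕ}

private lemma opL_nil : (opL [] : Module.End (ZMod 3) (Fn3 q q')) = 0 := by simp [opL]

private lemma opL_cons (t : Tm) (L : List Tm) : (opL (t :: L) : Module.End (ZMod 3) (Fn3 q q')) =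
    ((t.1 : ℤ) : ZMod 3) • op3 t.2.1 t.2.2.1 t.2.2.2.1 t.2.2.2.2 + opL L := by simp [opL]

private lemma opL_app (L L' : List Tm) :
    (opL (L ++ L') : Module.End (ZMod 3) (Fn3 q q')) = opL L + opL L' := by simp [opL]

private lemma sub_smul3 (a b : ZMod 3) (X : Module.End (ZMod 3) (Fn3 q q')) : (a - b) • X = a • X - b • X := by
  refine LinearMap.ext fun F => ?_
  funext x y
  change (a - b) * X F x y = a * X F x y - b * X F x y
  ring

private lemma sum_aux {ι : Type} (S : Finset ι) (a b : ι → ZMod 3) (X : ι → Module.End (ZMod 3) (Fn3 q q')) :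
    ∑ t ∈ S, (a t - b t) • X t = ∑ t ∈ S, a t • X t - ∑ t ∈ S, b t • X t := by
  rw [← Finset.sum_sub_distrib]
  exact Finset.sum_congr rfl fun t _ => sub_smul3 _ _ _

private lemma neg_smul3 (a : ZMod 3) (X : Module.End (ZMod 3) (Fn3 q q')) : (-a) • X = -(a • X) := by
  refine LinearMap.ext fun F => ?_
  funext x y
  change (-a) * X F x y = -(a * X F x y)
  ring

private lemma opL_neg (L : List Tm) : (opL (negL L) : Module.End (ZMod 3) (Fn3 q q')) = -opL L := by
  induction L with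
  | nil => simp [negL, opL_nil]
  | cons t L ih =>
    have h : negL (t :: L) = (-t.1, t.2) :: negL L := rfl
    rw [h, opL_cons, opL_cons, ih]
    push_cast
    rw [neg_smul3, neg_add]

end lists

/-- entries prime to three -/
private def good (L : List Tm) : Prop := ∀ t ∈ L, ¬ (3 : ℤ) ∣ t.2.1 ∧ ¬ (3 : ℤ) ∣ t.2.2.2.2

section ops

variable {r s : ℕ}

private lemma op3_mul (hTrm : S3Trm) (a b c d a' b' c' d' : ℤ) (ha : ¬ 3 ∣ a) (hd : ¬ 3 ∣ d) (ha' : ¬ 3 ∣ a')
    (hd' : ¬ 3 ∣ d') : (op3 a b c d * op3 a' b' c' d' : Module.End (ZMod 3) (Fn3 (3 ^ r) (3 ^ s))) =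
      op3 (a * a' + 9 * b * c') (a * b' + b * d') (c * a' + d * c') (9 * c * b' + d * d') := by
  refine LinearMap.ext fun F => ?_
  exact (hTrm (ZMod 3) r s F).1 a b c d a' b' c' d' ha hd ha' hd'

private lemma op3_one (hTrm : S3Trm) : (op3 1 0 0 1 : Module.End (ZMod 3) (Fn3 (3 ^ r) (3 ^ s))) = 1 := by
  refine LinearMap.ext fun F => ?_
  exact (hTrm (ZMod 3) r s F).2.1

private lemma opL_map (hTrm : S3Trm) (t : Tm) (ht : ¬ (3 : ℤ) ∣ t.2.1 ∧ ¬ (3 : ℤ) ∣ t.2.2.2.2) (L : List Tm)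
    (hL : good L) : (opL (L.map fun t' => mulT t t') : Module.End (ZMod 3) (Fn3 (3 ^ r) (3 ^ s))) =
      (((t.1 : ℤ) : ZMod 3) • op3 t.2.1 t.2.2.1 t.2.2.2.1 t.2.2.2.2) * opL L := by
  induction L with
  | nil => simp [opL_nil]
  | cons t' L ih =>
    have h1 := hL t' List.mem_cons_self
    rw [List.map_cons, opL_cons, opL_cons, ih fun x hx => hL x (List.mem_cons_of_mem _ hx), mul_add]
    congr 1
    rw [smul_mul_smul_comm, op3_mul hTrm _ _ _ _ _ _ _ _ ht.1 ht.2 h1.1 h1.2]
    unfold mulT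
    push_cast
    rfl

private lemma opL_mul (hTrm : S3Trm) (L L' : List Tm) (hL : good L) (hL' : good L') :
    (opL (mulL L L') : Module.End (ZMod 3) (Fn3 (3 ^ r) (3 ^ s))) = opL L * opL L' := by
  induction L with
  | nil => simp [mulL, opL_nil]
  | cons t L ih =>
    have h : mulL (t :: L) L' = (L'.map fun t' => mulT t t') ++ mulL L L' := by
      unfold mulL
      rw [List.flatMap_cons]
    rw [h, opL_app, opL_map hTrm t (hL t List.mem_cons_self) L' hL', opL_cons, add_mul,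
      ih fun x hx => hL x (List.mem_cons_of_mem _ hx)]

private lemma rel_eq (hTrm : S3Trm) (F : Fin 3 → Fn3 (3 ^ r) (3 ^ s)) (h : Rel3 F) :
    ∑ f : Fin 3, opL (relL f) (F f) = 0 := by
  have h0 : ∀ G : Fn3 (3 ^ r) (3 ^ s), op3 1 0 0 1 G = G := fun G => (hTrm (ZMod 3) r s G).2.1
  rw [Fin.sum_univ_three]
  simp only [relL, opL_cons, opL_nil, LinearMap.add_apply, LinearMap.smul_apply, LinearMap.zero_apply, h0]
  funext x y
  have h1 := h x y
  simp only [Pi.add_apply, Pi.smul_apply, smul_eq_mul, Pi.zero_apply, add_zero]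
  push_cast
  change F 0 x y - tr 1 0 1 1 (F 0) x y - (F 1 x y - tr (-2) 1 (-1) 4 (F 1) x y) +
    (tr 1 0 1 1 (F 2) x y - tr (-2) (-1) (-1) (-5) (F 2) x y) = 0 at h1
  change 1 * F 0 x y + -1 * tr 1 0 1 1 (F 0) x y + (-1 * F 1 x y + 1 * tr (-2) 1 (-1) 4 (F 1) x y) +
    (1 * tr 1 0 1 1 (F 2) x y + -1 * tr (-2) (-1) (-1) (-5) (F 2) x y) = 0
  linear_combination h1

/-- the monomials -/
private def mon (t : ℕ × ℕ × ℕ) : Module.End (ZMod 3) (Fn3 (3 ^ r) (3 ^ s)) :=
  (oD - 1) ^ t.1 * dX ^ t.2.1 * dY ^ t.2.2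

private lemma lw_zero (k : ℤ) : Lw (0 : Module.End (ZMod 3) (Fn3 (3 ^ r) (3 ^ s))) k := by
  intro d F _
  rw [LinearMap.zero_apply]
  exact Submodule.zero_mem _

private lemma lw_pow (hLow0 : S3Low0) (O : Module.End (ZMod 3) (Fn3 (3 ^ r) (3 ^ s))) (k : ℕ) (h : Lw O k) (n : ℕ) :
    Lw (O ^ n) ((k * n : ℕ) : ℤ) := by
  obtain ⟨l1, l2, l3, l4, l5, l6, l7, l8, _⟩ := hLow0 r s
  induction n with
  | zero => simpa using l6
  | succ n ih =>
    rw [pow_succ]
    have := l1 _ _ _ _ ih h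
    have e : ((k * n : ℕ) : ℤ) + k = ((k * (n + 1) : ℕ) : ℤ) := by push_cast; ring
    rw [e] at this
    exact this

private lemma lw_mon (hLow0 : S3Low0) (hNf : S3Nf) (t : ℕ × ℕ × ℕ) :
    Lw (mon t : Module.End (ZMod 3) (Fn3 (3 ^ r) (3 ^ s))) ((2 * t.1 + t.2.1 + t.2.2 : ℕ) : ℤ) := by
  obtain ⟨l1, l2, l3, l4, l5, l6, l7, l8, _⟩ := hLow0 r s
  have h0 := lw_pow hLow0 (oD - 1 : Module.End (ZMod 3) (Fn3 (3 ^ r) (3 ^ s))) 2 (hNf r s).1 t.1
  have h1 := lw_pow hLow0 (dX : Module.End (ZMod 3) (Fn3 (3 ^ r) (3 ^ s))) 1 (by exact_mod_cast l7) t.2.1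
  have h2 := lw_pow hLow0 (dY : Module.End (ZMod 3) (Fn3 (3 ^ r) (3 ^ s))) 1 (by exact_mod_cast l8) t.2.2
  have h := l1 _ _ _ _ (l1 _ _ _ _ h0 h1) h2
  have e : ((2 * t.1 : ℕ) : ℤ) + ((1 * t.2.1 : ℕ) : ℤ) + ((1 * t.2.2 : ℕ) : ℤ)
      = ((2 * t.1 + t.2.1 + t.2.2 : ℕ) : ℤ) := by push_cast; ring
  rw [e] at h
  exact h

private lemma lw_sum (hLow0 : S3Low0) {ι : Type} (S : Finset ι) (O : ι → Module.End (ZMod 3) (Fn3 (3 ^ r) (3 ^ s)))
    (k : ℤ) (h : ∀ i ∈ S, Lw (O i) k) : Lw (∑ i ∈ S, O i) k := by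
  classical
  obtain ⟨l1, l2, _⟩ := hLow0 r s
  induction S using Finset.induction_on with
  | empty => simpa using lw_zero k
  | insert a S ha ih =>
    rw [Finset.sum_insert ha]
    exact l2 _ _ _ (h a (Finset.mem_insert_self _ _)) (ih fun i hi => h i (Finset.mem_insert_of_mem hi))

/-- the expansion with prescribed coefficients -/
private lemma key (hLow0 : S3Low0) (hNf : S3Nf) (hExp : S3Exp) (L : List Tm)
    (hL : ∀ t ∈ L, (t.2.1 * t.2.2.2.2) % 3 = 1) (k : ℕ) (hk : k ≤ 5) (c : ℕ × ℕ × ℕ → ZMod 3)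
    (hc : ∀ t ∈ M5, 2 * t.1 + t.2.1 + t.2.2 < k → ((sS L t.1 t.2.1 t.2.2 : ℤ) : ZMod 3) = c t)
    (hc0 : ∀ t ∈ M5, k ≤ 2 * t.1 + t.2.1 + t.2.2 → c t = 0) :
    Lw ((opL L : Module.End (ZMod 3) (Fn3 (3 ^ r) (3 ^ s))) - ∑ t ∈ M5, c t • mon t) k := by
  obtain ⟨l1, l2, l3, l4, _⟩ := hLow0 r s
  have h0 : Lw ((opL L : Module.End (ZMod 3) (Fn3 (3 ^ r) (3 ^ s))) - ∑ t ∈ M5, ((sS L t.1 t.2.1 t.2.2 : ℤ) : ZMod 3) •
      (mon t : Module.End (ZMod 3) (Fn3 (3 ^ r) (3 ^ s)))) 5 := by
    have := hExp r s L hL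
    unfold mon
    convert this using 2
  have h1 := l4 _ _ (k : ℤ) (by exact_mod_cast hk) h0
  have h2 : Lw (∑ t ∈ M5, (((sS L t.1 t.2.1 t.2.2 : ℤ) : ZMod 3) - c t) •
      (mon t : Module.End (ZMod 3) (Fn3 (3 ^ r) (3 ^ s)))) k := by
    refine lw_sum hLow0 _ _ _ fun t ht => ?_
    by_cases hw : 2 * t.1 + t.2.1 + t.2.2 < k
    · rw [hc t ht hw, sub_self, zero_smul]
      exact lw_zero _
    · exact l3 _ _ _ (l4 _ _ (k : ℤ) (by exact_mod_cast not_lt.1 hw) (lw_mon hLow0 hNf t))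
  have h3 := l2 _ _ _ h1 h2
  rw [sum_aux M5 (fun t => ((sS L t.1 t.2.1 t.2.2 : ℤ) : ZMod 3)) c
    (fun t => (mon t : Module.End (ZMod 3) (Fn3 (3 ^ r) (3 ^ s)))), sub_add_sub_cancel] at h3
  exact h3

private lemma cast3 {S C : ℤ} (h : (3 : ℤ) ∣ S - C) : (S : ZMod 3) = (C : ZMod 3) := by
  have h1 := (ZMod.intCast_zmod_eq_zero_iff_dvd (S - C) 3).2 (by exact_mod_cast h)
  push_cast at h1
  exact sub_eq_zero.1 h1

private lemma sum_M5 (S : Finset (ℕ × ℕ × ℕ)) (hS : S ⊆ M5) (c : ℕ × ℕ × ℕ → ZMod 3) (hc : ∀ t, t ∉ S → c t = 0) :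
    ∑ t ∈ M5, c t • (mon t : Module.End (ZMod 3) (Fn3 (3 ^ r) (3 ^ s))) = ∑ t ∈ S, c t • mon t := by
  refine (Finset.sum_subset hS fun t _ hn => ?_).symm
  rw [hc t hn, zero_smul]

private lemma n2_eq (hTrm : S3Trm) (L : List Tm) (hL : good L) :
    (opL L : Module.End (ZMod 3) (Fn3 (3 ^ r) (3 ^ s))) =
      oN * opL (L.map fun t => (t.1, -t.2.1, -t.2.2.1, t.2.2.2.1, t.2.2.2.2)) := by
  induction L with
  | nil => simp [opL_nil]
  | cons t L ih =>
    have h1 := hL t List.mem_cons_self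
    rw [List.map_cons, opL_cons, opL_cons, mul_add, ← ih fun x hx => hL x (List.mem_cons_of_mem _ hx)]
    congr 1
    have h2 : (oN * op3 (-t.2.1) (-t.2.2.1) t.2.2.2.1 t.2.2.2.2 : Module.End (ZMod 3) (Fn3 (3 ^ r) (3 ^ s)))
        = op3 t.2.1 t.2.2.1 t.2.2.2.1 t.2.2.2.2 := by
      unfold oN
      rw [op3_mul hTrm _ _ _ _ _ _ _ _ (by norm_num) (by norm_num) (by rw [dvd_neg]; exact h1.1) h1.2]
      congr 1 <;> ring
    rw [mul_smul_comm, h2]

private lemma goodU (i : Fin 3) : good (U22 i) ∧ good (U7 i) ∧ good (relL i) := by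
  unfold good
  fin_cases i <;> decide

private lemma goodT (i f : Fin 3) : good (T2L i f) := by
  unfold good
  fin_cases i <;> fin_cases f <;> decide

end ops

/-- Module Ld. -/
theorem hLd (hTrm : S3Trm) (hLow0 : S3Low0) (hNf : S3Nf) (hExp : S3Exp) (hLw1 : S3Lw1) (hCert : S3Cert) : S3Ld := by
  intro r s d F hR hF
  obtain ⟨c1, c2, c3, c4, c5⟩ := hCert
  have hrel := rel_eq hTrm F hR
  obtain ⟨-, -, -, -, wN, -, -⟩ := hLw1 r s
  have gen : ∀ (O : Fin 3 → Module.End (ZMod 3) (Fn3 (3 ^ r) (3 ^ s))) (k : ℤ), (∀ f, Lw (O f) k) →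
      ∑ f, O f (F f) ∈ Wd3 (d - k) := fun O k h => Submodule.sum_mem _ fun f _ => h f d (F f) (hF f)
  -- a multiple of the relation
  have hmul : ∀ U : List Tm, good U → ∑ f : Fin 3, opL (negL (mulL U (relL f))) (F f) = 0 := by
    intro U hU
    have h1 : ∀ f : Fin 3, opL (negL (mulL U (relL f))) (F f) = -(opL U) (opL (relL f) (F f)) := by
      intro f
      rw [opL_neg, opL_mul hTrm U (relL f) hU (goodU f).2.2]
      rfl
    rw [Finset.sum_congr rfl fun f _ => h1 f, Finset.sum_neg_distrib, ← map_sum, hrel, map_zero, neg_zero]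
  have wt4 : ∀ t ∈ M5, 2 * t.1 + t.2.1 + t.2.2 ≤ 4 := by
    intro t ht
    unfold M5 at ht
    exact (Finset.mem_filter.1 ht).2
  refine ⟨fun i => ?_, fun i => ?_, fun i => ?_, ?_⟩
  · -- `T_2²`
    have hB : ∀ f, Lw ((opL (B22 i f) : Module.End (ZMod 3) (Fn3 (3 ^ r) (3 ^ s))) - if f = i then Qo else 0) 3 := by
      intro f
      have h := key hLow0 hNf hExp (r := r) (s := s) (B22 i f) (c1 i f).2.1 3 (by norm_num)
        (fun t => (((if f = i ∧ t = (0, 1, 1) then 1 else 0 : ℤ)) : ZMod 3))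
        (fun t ht hw => cast3 (c3 i f t ht (by omega)))
        (fun t ht hw => by
          rw [if_neg]
          · simp
          · rintro ⟨_, rfl⟩
            norm_num at hw)
      rw [sum_M5 {(0, 1, 1)} (by decide) _ (fun t ht => by
        rw [if_neg]
        · simp
        · rintro ⟨_, rfl⟩
          exact ht (Finset.mem_singleton_self _)), Finset.sum_singleton] at h
      have e : (((if f = i ∧ ((0, 1, 1) : ℕ × ℕ × ℕ) = (0, 1, 1) then 1 else 0 : ℤ)) : ZMod 3) •
          (mon (0, 1, 1) : Module.End (ZMod 3) (Fn3 (3 ^ r) (3 ^ s))) = if f = i then Qo else 0 := by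
        by_cases hf : f = i
        · rw [if_pos ⟨hf, rfl⟩, if_pos hf]
          unfold mon Qo
          simp
        · rw [if_neg fun h9 => hf h9.1, if_neg hf]
          simp
      rw [e] at h
      exact_mod_cast h
    have h1 := gen _ 3 hB
    have e1 : ∑ f : Fin 3, (opL (T22L i f)) (F f) - Qo (F i) =
        ∑ f : Fin 3, ((opL (B22 i f) - (if f = i then Qo else 0) : Module.End (ZMod 3) (Fn3 (3 ^ r) (3 ^ s))) (F f)) := by
      have e2 : ∀ f : Fin 3, ((opL (B22 i f) - (if f = i then Qo else 0) : Module.End (ZMod 3) (Fn3 (3 ^ r) (3 ^ s))) (F f))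
          = (opL (T22L i f)) (F f) + opL (negL (mulL (U22 i) (relL f))) (F f) - (if f = i then Qo (F f) else 0) := by
        intro f
        unfold B22
        rw [opL_app, LinearMap.sub_apply, LinearMap.add_apply]
        by_cases hf : f = i
        · rw [if_pos hf, if_pos hf]
        · rw [if_neg hf, if_neg hf, LinearMap.zero_apply]
      rw [Finset.sum_congr rfl fun f _ => e2 f, Finset.sum_sub_distrib, Finset.sum_add_distrib, hmul _ (goodU i).1,
        add_zero, Finset.sum_ite_eq' Finset.univ i (fun f => Qo (F f)), if_pos (Finset.mem_univ i)]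
    rw [e1]
    exact h1
  · -- `T_7 + 1 - T_2²`
    have hB : ∀ f, Lw ((opL (B7 i f) : Module.End (ZMod 3) (Fn3 (3 ^ r) (3 ^ s))) - if f = i then Lo else 0) 5 := by
      intro f
      have h := key hLow0 hNf hExp (r := r) (s := s) (B7 i f) (c1 i f).1 5 le_rfl
        (fun t => (((if f = i ∧ t ∈ ({(0, 3, 1), (0, 2, 2), (0, 1, 3)} : Finset (ℕ × ℕ × ℕ)) then 2 else 0 : ℤ)) : ZMod 3))
        (fun t ht hw => cast3 (c2 i f t ht))
        (fun t ht hw => by
          have := wt4 t ht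
          omega)
      rw [sum_M5 {(0, 3, 1), (0, 2, 2), (0, 1, 3)} (by decide) _ (fun t ht => by
        rw [if_neg fun h9 => ht h9.2]
        simp), Finset.sum_insert (by decide), Finset.sum_insert (by decide), Finset.sum_singleton] at h
      by_cases hf : f = i
      · rw [if_pos ⟨hf, by decide⟩, if_pos ⟨hf, by decide⟩, if_pos ⟨hf, by decide⟩] at h
        rw [if_pos hf]
        have e : (((2 : ℤ)) : ZMod 3) • (mon (0, 3, 1) : Module.End (ZMod 3) (Fn3 (3 ^ r) (3 ^ s))) +
            ((((2 : ℤ)) : ZMod 3) • (mon (0, 2, 2) : Module.End (ZMod 3) (Fn3 (3 ^ r) (3 ^ s))) +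
            (((2 : ℤ)) : ZMod 3) • (mon (0, 1, 3) : Module.End (ZMod 3) (Fn3 (3 ^ r) (3 ^ s)))) = Lo := by
          have h2 : (((2 : ℤ)) : ZMod 3) = -1 := by decide
          rw [h2, neg_smul3, neg_smul3, neg_smul3, one_smul, one_smul, one_smul]
          unfold mon Lo
          simp only [pow_zero, one_mul, pow_one]
          abel
        rw [e] at h
        exact_mod_cast h
      · rw [if_neg fun h9 => hf h9.1, if_neg fun h9 => hf h9.1, if_neg fun h9 => hf h9.1] at h
        rw [if_neg hf]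
        have e : (((0 : ℤ)) : ZMod 3) • (mon (0, 3, 1) : Module.End (ZMod 3) (Fn3 (3 ^ r) (3 ^ s))) +
            ((((0 : ℤ)) : ZMod 3) • (mon (0, 2, 2) : Module.End (ZMod 3) (Fn3 (3 ^ r) (3 ^ s))) +
            (((0 : ℤ)) : ZMod 3) • (mon (0, 1, 3) : Module.End (ZMod 3) (Fn3 (3 ^ r) (3 ^ s)))) = 0 := by
          simp
        rw [e] at h
        exact_mod_cast h
    have h1 := gen _ 5 hB
    have e1 : (∑ f : Fin 3, (opL (T7L i f)) (F f)) + F i - (∑ f : Fin 3, opL (T22L i f) (F f)) - Lo (F i) =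
        ∑ f : Fin 3, ((opL (B7 i f) - (if f = i then Lo else 0) : Module.End (ZMod 3) (Fn3 (3 ^ r) (3 ^ s))) (F f)) := by
      have e2 : ∀ f : Fin 3, ((opL (B7 i f) - (if f = i then Lo else 0) : Module.End (ZMod 3) (Fn3 (3 ^ r) (3 ^ s))) (F f))
          = (opL (T7L i f)) (F f) - (opL (T22L i f)) (F f) + (if f = i then F f else 0)
            + opL (negL (mulL (U7 i) (relL f))) (F f) - (if f = i then Lo (F f) else 0) := by
        intro f
        unfold B7
        rw [opL_app, opL_app, opL_app, opL_neg (T22L i f), LinearMap.sub_apply, LinearMap.add_apply,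
          LinearMap.add_apply, LinearMap.add_apply, LinearMap.neg_apply, ← sub_eq_add_neg]
        by_cases hf : f = i
        · rw [if_pos hf, if_pos hf, if_pos hf, if_pos hf, opL_cons, opL_nil]
          simp only [Int.cast_one, one_smul, add_zero]
          rw [op3_one hTrm]
          rfl
        · rw [if_neg hf, if_neg hf, if_neg hf, if_neg hf, opL_nil, LinearMap.zero_apply]
      rw [Finset.sum_congr rfl fun f _ => e2 f, Finset.sum_sub_distrib, Finset.sum_add_distrib, Finset.sum_add_distrib,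
        Finset.sum_sub_distrib, hmul _ (goodU i).2.1,
        add_zero, Finset.sum_ite_eq' Finset.univ i (fun f => Lo (F f)), Finset.sum_ite_eq' Finset.univ i F,
        if_pos (Finset.mem_univ i), if_pos (Finset.mem_univ i)]
      abel
    rw [e1]
    exact h1
  · -- `T_2` lowers
    have hB : ∀ f, Lw (opL (N2 i f) : Module.End (ZMod 3) (Fn3 (3 ^ r) (3 ^ s))) 1 := by
      intro f
      have h := key hLow0 hNf hExp (r := r) (s := s) (N2 i f) (c1 i f).2.2.1 1 (by norm_num) (fun _ => 0)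
        (fun t ht hw => by
          have h0 : t.1 = 0 ∧ t.2.1 = 0 ∧ t.2.2 = 0 := by omega
          rw [h0.1, h0.2.1, h0.2.2]
          have := cast3 (S := sS (N2 i f) 0 0 0) (C := 0) (by rw [sub_zero]; exact c4 i f)
          rw [this]
          simp)
        (fun _ _ _ => rfl)
      simp only [zero_smul, Finset.sum_const_zero, sub_zero] at h
      exact_mod_cast h
    have h1 := gen _ 1 hB
    have e1 : ∑ f : Fin 3, (opL (T2L i f)) (F f) = oN (∑ f : Fin 3, opL (N2 i f) (F f)) := by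
      rw [map_sum]
      refine Finset.sum_congr rfl fun f _ => ?_
      rw [n2_eq hTrm _ (goodT i f)]
      rfl
    rw [e1]
    have h2 := wN _ _ h1
    rw [sub_zero] at h2
    exact h2
  · -- `T_2`, leading form
    set G : Fin 3 → Module.End (ZMod 3) (Fn3 (3 ^ r) (3 ^ s)) := ![0, -(dX - dY), dX - dY] with hG
    have hB : ∀ f, Lw ((opL (N2 0 f ++ relL f) : Module.End (ZMod 3) (Fn3 (3 ^ r) (3 ^ s))) - G f) 2 := by
      intro f
      have hL : ∀ t ∈ N2 0 f ++ relL f, (t.2.1 * t.2.2.2.2) % 3 = 1 := by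
        intro t ht
        rcases List.mem_append.1 ht with h | h
        · exact (c1 0 f).2.2.1 t h
        · exact (c1 0 f).2.2.2 t h
      have hM : ∀ t, t ∉ ({(0, 1, 0), (0, 0, 1)} : Finset (ℕ × ℕ × ℕ)) → t ≠ (0, 1, 0) ∧ t ≠ (0, 0, 1) := by
        intro t ht
        rw [Finset.mem_insert, Finset.mem_singleton, not_or] at ht
        exact ht
      have h2 : ((2 : ℤ) : ZMod 3) = -1 := by decide
      fin_cases f
      · have h := key hLow0 hNf hExp (r := r) (s := s) _ hL 2 (by norm_num) (fun _ => 0)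
          (fun t ht hw => by
            have := cast3 (c5 0 t ht (by omega))
            rw [Int.cast_zero] at this
            exact this)
          (fun _ _ _ => rfl)
        simp only [zero_smul, Finset.sum_const_zero] at h
        exact_mod_cast h
      · have h := key hLow0 hNf hExp (r := r) (s := s) _ hL 2 (by norm_num)
          (fun t => ((if t = (0, 1, 0) then 2 else if t = (0, 0, 1) then 1 else 0 : ℤ) : ZMod 3))
          (fun t ht hw => cast3 (c5 1 t ht (by omega)))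
          (fun t ht hw => by
            rw [if_neg (by rintro rfl; norm_num at hw), if_neg (by rintro rfl; norm_num at hw)]
            simp)
        rw [sum_M5 {(0, 1, 0), (0, 0, 1)} (by decide) _ (fun t ht => by
          rw [if_neg (hM t ht).1, if_neg (hM t ht).2]
          simp), Finset.sum_insert (by decide), Finset.sum_singleton, if_pos rfl, if_neg (by decide), if_pos rfl, h2,
          neg_smul3, one_smul, Int.cast_one, one_smul] at h
        have e : -(mon (0, 1, 0) : Module.End (ZMod 3) (Fn3 (3 ^ r) (3 ^ s))) + mon (0, 0, 1) = G 1 := by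
          change _ = -(dX - dY)
          unfold mon
          simp only [pow_zero, one_mul, pow_one, mul_one]
          abel
        rw [e] at h
        exact_mod_cast h
      · have h := key hLow0 hNf hExp (r := r) (s := s) _ hL 2 (by norm_num)
          (fun t => ((if t = (0, 1, 0) then 1 else if t = (0, 0, 1) then 2 else 0 : ℤ) : ZMod 3))
          (fun t ht hw => cast3 (c5 2 t ht (by omega)))
          (fun t ht hw => by
            rw [if_neg (by rintro rfl; norm_num at hw), if_neg (by rintro rfl; norm_num at hw)]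
            simp)
        rw [sum_M5 {(0, 1, 0), (0, 0, 1)} (by decide) _ (fun t ht => by
          rw [if_neg (hM t ht).1, if_neg (hM t ht).2]
          simp), Finset.sum_insert (by decide), Finset.sum_singleton, if_pos rfl, if_neg (by decide), if_pos rfl, h2,
          neg_smul3, one_smul, Int.cast_one, one_smul] at h
        have e : (mon (0, 1, 0) : Module.End (ZMod 3) (Fn3 (3 ^ r) (3 ^ s))) + -mon (0, 0, 1) = G 2 := by
          change _ = dX - dY
          unfold mon
          simp only [pow_zero, one_mul, pow_one, mul_one]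
          abel
        rw [e] at h
        exact_mod_cast h
    have h1 := gen _ 2 hB
    have e1 : ∑ f : Fin 3, (opL (T2L 0 f)) (F f) +
        oN ((dX - dY : Module.End (ZMod 3) (Fn3 (3 ^ r) (3 ^ s))) (F 1 - F 2)) =
        oN (∑ f : Fin 3, ((opL (N2 0 f ++ relL f) : Module.End (ZMod 3) (Fn3 (3 ^ r) (3 ^ s))) - G f) (F f)) := by
      have e2 : ∑ f : Fin 3, (opL (T2L 0 f)) (F f) = oN (∑ f : Fin 3, opL (N2 0 f) (F f)) := by
        rw [map_sum]
        refine Finset.sum_congr rfl fun f _ => ?_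
        rw [n2_eq hTrm _ (goodT 0 f)]
        rfl
      rw [e2, ← map_add]
      congr 1
      have e3 : ∀ f : Fin 3, ((opL (N2 0 f ++ relL f) : Module.End (ZMod 3) (Fn3 (3 ^ r) (3 ^ s))) - G f) (F f)
          = opL (N2 0 f) (F f) + opL (relL f) (F f) - G f (F f) := by
        intro f
        rw [opL_app]
        rfl
      rw [Finset.sum_congr rfl fun f _ => e3 f, Finset.sum_sub_distrib, Finset.sum_add_distrib, hrel, add_zero,
        Fin.sum_univ_three (fun f => G f (F f))]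
      have g0 : G 0 = 0 := rfl
      have g1 : G 1 = -(dX - dY) := rfl
      have g2 : G 2 = dX - dY := rfl
      rw [g0, g1, g2, map_sub, LinearMap.zero_apply, LinearMap.neg_apply]
      abel
    rw [e1]
    have h2 := wN _ _ h1
    rw [sub_zero] at h2
    exact h2

end Pool.Agent.Helper7.W3
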